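import Pool.Agent.K7.H26.SHI.Main
import Pool.Agent.K7.H18.SHI_KER
import Pool.Agent.K7.H29.SHI_BOUND
import Pool.Agent.K7.H99.SHI.COUNT

/-!
# A semiring-homomorphic graph invariant that is not multiplicative under the lexicographic product

Roberson's question has a negative answer: there is a semiring-homomorphic graph invariant `η`
(monotone under homomorphisms, additive under the join, multiplicative under the disjunctive
product, `η K₁ = 1`) and a number `d` with `η (C₅ ⋉ K_d) < d η (C₅) = η (C₅) η (K_d)`.
-/

set_option autoImplicit false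
set_option linter.constructorNameAsVariable false

namespace Pool.Agent.Results.MP_4c8f29_co.NotLexMultiplicative

open Pool.Agent.K7.H26.SHI

/-- There are a semiring-homomorphic graph invariant `η` and a number `d` such that
`η (C₅ ⋉ K_d) < d * η (C₅)` and `η (C₅ ⋉ K_d) < η (C₅) * η (K_d)`; in particular not every
semiring-homomorphic graph invariant is multiplicative under the lexicographic product. -/
theorem result :
    (∃ η : ∀ (V : Type) [Fintype V], SimpleGraph V → ℝ, IsSHInvariant η ∧
      ∃ d : ℕ, η (Fin d) (KK d) = d ∧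
        η (Fin 5 × Fin d) (lex C5 (KK d)) < η (Fin 5) C5 * η (Fin d) (KK d)) ∧
    ¬ ∀ η : ∀ (V : Type) [Fintype V], SimpleGraph V → ℝ, IsSHInvariant η →
      ∀ (V W : Type) [Fintype V] [Fintype W] (G : SimpleGraph V) (H : SimpleGraph W),
        η (V × W) (lex G H) = η V G * η W H := by
  obtain ⟨η, hη, hlt⟩ := main (Pool.Agent.K7.H99.SHI.count (Pool.Agent.K7.H29.SHI.bound
    Pool.Agent.K7.H18.SHI.stKer))
  have hK : ∀ d : ℕ, η (Fin d) (KK d) = d := by
    intro d
    induction d with
    | zero =>
      have h1 := hη.join (Fin 0) (Fin 0) (KK 0) (KK 0)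
      have h2 : η (Fin 0 ⊕ Fin 0) (join (KK 0) (KK 0)) = η (Fin 0) (KK 0) := by
        refine le_antisymm (hη.mono _ _ _ _ ?_) (hη.mono _ _ _ _ ?_)
        · exact ⟨⟨fun x => x.elim (fun y => y) (fun y => y), fun {x} => by
            rcases x with x | x <;> exact x.elim0⟩⟩
        · exact ⟨⟨fun x => x.elim0, fun {x} => x.elim0⟩⟩
      rw [h2] at h1
      have : η (Fin 0) (KK 0) = 0 := by linarith
      rw [this, Nat.cast_zero]
    | succ d ih =>
      have h1 := hη.join (Fin d) (Fin 1) (KK d) (KK 1)
      have h2 : η (Fin d ⊕ Fin 1) (join (KK d) (KK 1)) = η (Fin (d + 1)) (KK (d + 1)) := by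
        refine le_antisymm (hη.mono _ _ _ _ ?_) (hη.mono _ _ _ _ ?_)
        · refine ⟨⟨finSumFinEquiv, ?_⟩⟩
          intro x y hxy
          have := hxy.ne
          simpa using this
        · refine ⟨⟨finSumFinEquiv.symm, ?_⟩⟩
          intro x y hxy
          have hne : finSumFinEquiv.symm x ≠ (finSumFinEquiv.symm y : Fin d ⊕ Fin 1) := by
            simpa using hxy.ne
          revert hne
          generalize finSumFinEquiv.symm x = a
          generalize finSumFinEquiv.symm y = b
          rintro hne
          rcases a with a | a <;> rcases b with b | b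
          · exact fun h => hne (by rw [h])
          · trivial
          · trivial
          · exact (hne (by rw [Subsingleton.elim a b])).elim
      rw [← h2, h1, ih, hη.one]
      push_cast
      ring
  refine ⟨⟨η, hη, mm, hK mm, ?_⟩, ?_⟩
  · rw [hK mm]
    linarith
  · intro hall
    have h := hall η hη (Fin 5) (Fin mm) C5 (KK mm)
    rw [hK mm] at h
    linarith

end Pool.Agent.Results.MP_4c8f29_co.NotLexMultiplicative
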